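import Pool.Agent.X286.Tr.Arr

/-!
# Arrangements with a spanning clique: counting points of all heights
-/

set_option autoImplicit false

namespace Pool.Agent.X286.Tr

open Finset Pool.Agent.X286.Sz Pool.Agent.X286.Vn

/-- the vector with the values zero on a spanning set of forms -/
theorem eq_of_values {n q : ℕ} {L : Fin q → Fin n → ℤ} {B : Set (Fin q)}
    (hspan : Submodule.span ℚ (Vn.vec L '' B) = ⊤) {x y : Fin n → ℤ}
    (h : ∀ i ∈ B, ev L x i = ev L y i) : x = y := by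
  classical
  obtain ⟨φ, hφ⟩ : ∃ φ : (Fin n → ℚ) →ₗ[ℚ] ℚ, ∀ w, φ w = ∑ k, w k * ((x k : ℚ) - y k) := by
    refine ⟨∑ k, ((x k : ℚ) - y k) • LinearMap.proj k, fun w => ?_⟩
    rw [LinearMap.sum_apply]
    refine sum_congr rfl fun k _ => ?_
    rw [LinearMap.smul_apply, LinearMap.proj_apply, smul_eq_mul, mul_comm]
  have h1 : ∀ w ∈ Submodule.span ℚ (Vn.vec L '' B), φ w = 0 := by
    intro w hw
    induction hw using Submodule.span_induction with
    | mem w hw =>
      obtain ⟨i, hi, rfl⟩ := hw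
      rw [hφ]
      have h2 := congrArg (fun z : ℤ => (z : ℚ)) (h i hi)
      simp only [ev, Int.cast_sum, Int.cast_mul] at h2
      simp only [Vn.vec, mul_sub, sum_sub_distrib]
      linarith
    | zero => exact map_zero φ
    | add a b _ _ ha hb => rw [map_add, ha, hb, add_zero]
    | smul c a _ ha => rw [map_smul, ha, smul_zero]
  funext k
  have h2 := h1 (Pi.single k 1) (by rw [hspan]; trivial)
  rw [hφ, Finset.sum_eq_single k] at h2
  · rw [Pi.single_eq_same, one_mul, sub_eq_zero] at h2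
    exact_mod_cast h2
  · intro l _ hl
    rw [Pi.single_eq_of_ne hl, zero_mul]
  · intro h3
    exact absurd (mem_univ k) h3

theorem ev_smul {n q : ℕ} (L : Fin q → Fin n → ℤ) (c : ℤ) (x : Fin n → ℤ) (i : Fin q) :
    ev L (fun k => c * x k) i = c * ev L x i := by
  unfold ev
  rw [mul_sum]
  exact sum_congr rfl fun k _ => by ring

/-- proportional primitive vectors -/
theorem prim_eq {n : ℕ} {x y : Fin n → ℤ} (hx : univ.gcd x = 1) (hy : univ.gcd y = 1) {a b : ℤ}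
    (hab : 0 < a ↔ 0 < b) (ha : a ≠ 0) (hb : b ≠ 0) (h : ∀ k, b * x k = a * y k) : x = y := by
  classical
  have h1 : univ.gcd (fun k => b * x k) = univ.gcd (fun k => a * y k) := by
    congr 1
    funext k
    exact h k
  rw [Finset.gcd_mul_left, Finset.gcd_mul_left, hx, hy, mul_one, mul_one,
    ← Int.abs_eq_normalize, ← Int.abs_eq_normalize] at h1
  have hba : b = a := by
    rcases lt_or_gt_of_ne ha with h2 | h2 <;> rcases lt_or_gt_of_ne hb with h3 | h3
    · rw [abs_of_neg h3, abs_of_neg h2] at h1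
      linarith
    · exact absurd (hab.2 h3) (by linarith)
    · exact absurd (hab.1 h2) (by linarith)
    · rw [abs_of_pos h3, abs_of_pos h2] at h1
      exact h1
  funext k
  have h2 := h k
  rw [hba] at h2
  exact mul_left_cancel₀ ha h2

/-- **Arrangements with a spanning clique.** All heights. -/
theorem points {n q : ℕ} (L : Fin q → Fin n → ℤ) (A : Fin q → Fin q → Prop)
    (hA : ∀ i j, A i j → Rel3 L i j) (B : Set (Fin q))
    (hspan : Submodule.span ℚ (Vn.vec L '' B) = ⊤)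
    (hB : ∀ i ∈ B, ∀ j ∈ B, i ≠ j → A i j) (S : Finset ℕ) (m : ℕ) {ε : ℝ} (hε : 0 < ε) :
    ∃ (κ : ℕ) (C : ℝ), 0 < C ∧ ∀ X : ℕ, 1 ≤ X → ∀ Q : Set (Fin n → ℤ),
      (∀ x ∈ Q, univ.gcd x = 1 ∧ ∃ N : ℕ, 0 < N ∧ N ≤ X ∧ Adm S L m x N ∧
        ∃ k, (N : ℤ) ^ κ < |x k|) → Q.Finite ∧ (Q.ncard : ℝ) ≤ C * (X : ℝ) ^ ε := by
  classical
  -- the trivial case
  rcases B.eq_empty_or_nonempty with hBe | ⟨j0, hj0⟩
  · refine ⟨1, 1, one_pos, fun X hX Q hQ => ?_⟩
    have : Q = ∅ := by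
      rw [Set.eq_empty_iff_forall_notMem]
      intro x hx
      obtain ⟨-, N, -, -, -, k, -⟩ := hQ x hx
      rw [hBe, Set.image_empty, Submodule.span_empty] at hspan
      have h2 : (Pi.single k 1 : Fin n → ℚ) ∈ (⊥ : Submodule ℚ (Fin n → ℚ)) := by
        rw [hspan]
        trivial
      rw [Submodule.mem_bot] at h2
      have h3 := congrFun h2 k
      rw [Pi.single_eq_same, Pi.zero_apply] at h3
      exact one_ne_zero h3
    rw [this]
    refine ⟨Set.finite_empty, ?_⟩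
    rw [Set.ncard_empty, Nat.cast_zero]
    positivity
  obtain ⟨d⟩ := exists_dat L A hA
  have hM0 := d.M_pos S
  obtain ⟨G, hG⟩ := height_of_small (span_repl j0 hspan)
  obtain ⟨τ, hτ⟩ : ∃ τ : (Fin q × Fin q × Fin 3) × (ℕ × ℕ) → ℚ, τ = fun z =>
      ((q1 z.1.2.2 z.2.1 z.2.2 * d.b z.1.1 z.1.2.1 : ℤ) : ℚ) /
        ((q2 z.1.2.2 z.2.1 z.2.2 * d.a z.1.1 z.1.2.1 : ℤ) : ℚ) := ⟨_, rfl⟩
  obtain ⟨κ, C, hC, hd⟩ := Pool.Agent.X286.Gn.dyad (β := ℚ) (ι := Fin q × Fin q × Fin 3) τ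
    ((m + 1) * (m + 1) + (d.M S + 1)) (d.M S) (d.M S) 1 0 hM0 hM0
    (ε := ε / (q + 1)) (by positivity)
  obtain ⟨G', hG'⟩ : ∃ G' : ℕ, G' = G * ((G ^ (2 * κ)) ^ (2 * q)) := ⟨_, rfl⟩
  refine ⟨2 * κ * (2 * q) + 1, (2 * G' + 1) ^ n + q * (2 * C) ^ q * 2, by positivity,
    fun X hX Q hQ => ?_⟩
  obtain ⟨E, hE⟩ : ∃ E : Set ℚ, E = {b | ∃ (N Z : ℕ) (k : Fin q × Fin q × Fin 3) (u v : ℕ),
      0 < N ∧ N ≤ X ∧ N ^ κ < Z ∧ 0 < u ∧ 0 < v ∧ u.Coprime v ∧ b = τ (k, (u, v)) ∧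
      Sz.PowerProduct ((m + 1) * (m + 1) + (d.M S + 1)) (d.M S + N) u ∧
      Sz.PowerProduct ((m + 1) * (m + 1) + (d.M S + 1)) (d.M S + N) v ∧
      Sz.PowerProduct ((m + 1) * (m + 1) + (d.M S + 1)) (d.M S + N) (u + v) ∧
      Z ≤ (d.M S) * ((u + v) ^ 1 * N ^ 0)} := ⟨_, rfl⟩
  obtain ⟨hfin, hcard⟩ := hd X hX E (fun b hb => by
    rw [hE] at hb
    exact hb)
  have hXr : (1 : ℝ) ≤ X := by exact_mod_cast hX
  -- large quotients are exceptional
  have hlarge : ∀ (x : Fin n → ℤ) (N : ℕ), 0 < N → N ≤ X → Adm S L m x N → ∀ i ∈ B, ∀ j ∈ B,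
      ¬ Small ((N : ℤ) ^ κ) (ev L x i) (ev L x j) → (ev L x i : ℚ) / ev L x j ∈ E := by
    intro x N hN hNX hadm i hi j hj hns
    have hN1 : (1 : ℤ) ≤ (N : ℤ) ^ κ := one_le_pow₀ (by exact_mod_cast hN)
    have hij : i ≠ j := by
      rintro rfl
      exact hns (small_refl _ _ hN1)
    obtain ⟨k, u, v, hu, hv, huv, h4, h5, h6, h7⟩ := step d S hadm (hB i hi j hj hij)
    rw [hE]
    refine ⟨N, d.M S * (u + v), (i, j, k), u, v, hN, hNX, ?_, hu, hv, huv, ?_, h5, h6, h7, ?_⟩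
    · by_contra hcon
      push Not at hcon
      apply hns
      refine small_mono ?_ (small_of d S hu hv h4)
      exact_mod_cast hcon
    · rw [hτ]
      exact div_of d hu hv (hadm.1 j) h4
    · rw [pow_one, pow_zero, mul_one]
  -- the data of a point
  obtain ⟨R, hR⟩ : ∃ R : (Fin n → ℤ) → Fin q × (Fin q → Bool × ℚ) × Bool → Prop,
    R = fun x f => (f.2.2 = true ↔ 0 < ev L x j0) ∧ f.1 ∈ B ∧
      (ev L x f.1 : ℚ) = (f.2.1 f.1).2 * ev L x j0 ∧ (f.2.1 f.1).1 = true ∧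
      ∀ i ∈ B, (f.2.1 i).2 ≠ 0 ∧
        ((f.2.1 i).1 = true → (ev L x i : ℚ) = (f.2.1 i).2 * ev L x j0) ∧
        ((f.2.1 i).1 = false → (ev L x f.1 : ℚ) = (f.2.1 i).2 * ev L x i) := ⟨_, rfl⟩
  obtain ⟨Box, hBox⟩ : ∃ Box : Finset (Fin n → ℤ), Box = Fintype.piFinset
    fun _ => Finset.Icc (-(G' : ℤ)) G' := ⟨_, rfl⟩
  obtain ⟨D, hD⟩ : ∃ D : Finset (Fin q × (Fin q → Bool × ℚ) × Bool), D = univ ×ˢ
    ((Fintype.piFinset fun _ => univ ×ˢ hfin.toFinset) ×ˢ univ) := ⟨_, rfl⟩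
  have hex : ∀ x ∈ Q \ (Box : Set (Fin n → ℤ)), ∃ f, f ∈ D ∧ R x f := by
    rintro x ⟨hxQ, hxB⟩
    obtain ⟨hx, N, hN, hNX, hadm, k0, hk0⟩ := hQ x hxQ
    have hN1 : 1 ≤ N ^ (2 * κ) := Nat.one_le_pow _ _ hN
    have hN1' : (1 : ℤ) ≤ (N : ℤ) ^ (2 * κ) := by exact_mod_cast hN1
    have hi0 : ∃ i0 ∈ B, ¬ Small ((N : ℤ) ^ (2 * κ)) (ev L x i0) (ev L x j0) := by
      by_contra hcon
      push Not at hcon
      have hhe := hG (N ^ (2 * κ)) x j0 hN1 hx (fun j => by
        rw [ev_repl, ev_repl, if_pos hj0]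
        by_cases hj : j ∈ B
        · rw [if_pos hj]
          have := hcon j hj
          push_cast
          exact this
        · rw [if_neg hj]
          exact small_refl _ _ (by exact_mod_cast hN1)) (by
        rw [ev_repl, if_pos hj0]
        exact hadm.1 _)
      have h1 : (N : ℤ) ^ (2 * κ * (2 * q) + 1) < G * ((N ^ (2 * κ) : ℕ) : ℤ) ^ (2 * q) :=
        hk0.trans_le (hhe k0)
      have h2 : N ^ (2 * κ * (2 * q) + 1) < G * (N ^ (2 * κ)) ^ (2 * q) := by exact_mod_cast h1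
      rw [← pow_mul, pow_succ', ] at h2
      have h3 : N < G := lt_of_mul_lt_mul_right h2 (Nat.zero_le _)
      apply hxB
      rw [hBox, mem_coe, Fintype.mem_piFinset]
      intro k
      rw [Finset.mem_Icc, ← abs_le]
      refine (hhe k).trans ?_
      rw [hG']
      push_cast
      refine mul_le_mul_of_nonneg_left ?_ (Int.natCast_nonneg _)
      refine pow_le_pow_left₀ (by positivity) ?_ _
      exact pow_le_pow_left₀ (by positivity) (by exact_mod_cast h3.le) _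
    obtain ⟨i0, hi0B, hi0⟩ := hi0
    have hval : ∀ i, (ev L x i : ℚ) ≠ 0 := fun i => by exact_mod_cast hadm.1 i
    -- the choice for each form
    have hch : ∀ i, ∃ c : Bool × ℚ, c.2 ∈ E ∧ (i ∈ B → c.2 ≠ 0 ∧
        (c.1 = true → (ev L x i : ℚ) = c.2 * ev L x j0) ∧
        (c.1 = false → (ev L x i0 : ℚ) = c.2 * ev L x i)) ∧ (i = i0 → c.1 = true) := by
      intro i
      have hbase : (ev L x i0 : ℚ) / ev L x j0 ∈ E := by
        refine hlarge x N hN hNX hadm i0 hi0B j0 hj0 fun h => hi0 (small_mono ?_ h)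
        exact pow_le_pow_right₀ (by exact_mod_cast hN) (by omega)
      by_cases hi : i ∈ B
      · by_cases h1 : Small ((N : ℤ) ^ κ) (ev L x i) (ev L x j0)
        · have h2 : ¬ Small ((N : ℤ) ^ κ) (ev L x i0) (ev L x i) := by
            intro h3
            apply hi0
            have := small_trans h3 h1
            rwa [← pow_add, ← two_mul] at this
          refine ⟨(false, (ev L x i0 : ℚ) / ev L x i), hlarge x N hN hNX hadm i0 hi0B i hi h2,
            fun _ => ⟨div_ne_zero (hval _) (hval _), fun h => by simp at h, fun _ => ?_⟩, ?_⟩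
          · exact (div_mul_cancel₀ _ (hval i)).symm
          · rintro rfl
            exact absurd (small_mono (pow_le_pow_right₀ (by exact_mod_cast hN)
              (by omega : κ ≤ 2 * κ)) h1) hi0
        · refine ⟨(true, (ev L x i : ℚ) / ev L x j0), hlarge x N hN hNX hadm i hi j0 hj0 h1,
            fun _ => ⟨div_ne_zero (hval _) (hval _), fun _ => ?_, fun h => by simp at h⟩,
            fun _ => rfl⟩
          exact (div_mul_cancel₀ _ (hval j0)).symm
      · exact ⟨(true, (ev L x i0 : ℚ) / ev L x j0), hbase, fun h => absurd h hi, fun _ => rfl⟩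
    choose c hc1 hc2 hc3 using hch
    refine ⟨(i0, c, decide (0 < ev L x j0)), ?_, ?_⟩
    · rw [hD, mem_product, mem_product]
      refine ⟨mem_univ _, Fintype.mem_piFinset.2 fun i => mem_product.2 ⟨mem_univ _, ?_⟩,
        mem_univ _⟩
      rw [Set.Finite.mem_toFinset]
      exact hc1 i
    · rw [hR]
      refine ⟨by simp, hi0B, (hc2 i0 hi0B).2.1 (hc3 i0 rfl), hc3 i0 rfl, fun i hi => hc2 i hi⟩
  have : Nonempty (Fin q) := ⟨j0⟩
  choose! F hF1 hF2 using hex
  have hinj : Set.InjOn F (Q \ (Box : Set (Fin n → ℤ))) := by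
    intro x hx y hy hxy
    obtain ⟨hx1, N, hN, hNX, hadm, -⟩ := hQ x hx.1
    obtain ⟨hy1, N', hN', hNX', hadm', -⟩ := hQ y hy.1
    have r1 := hF2 x hx
    have r2 := hF2 y hy
    rw [← hxy] at r2
    rw [hR] at r1 r2
    obtain ⟨a1, a2, a3, a4, a5⟩ := r1
    obtain ⟨b1, b2, b3, b4, b5⟩ := r2
    have hX0 : (ev L x j0 : ℚ) ≠ 0 := by exact_mod_cast hadm.1 j0
    have hY0 : (ev L y j0 : ℚ) ≠ 0 := by exact_mod_cast hadm'.1 j0
    refine prim_eq hx1 hy1 (a := ev L x j0) (b := ev L y j0) (a1.symm.trans b1) (hadm.1 j0)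
      (hadm'.1 j0) ?_
    have hkey : (fun k => ev L y j0 * x k) = fun k => ev L x j0 * y k := by
      apply eq_of_values hspan
      intro i hi
      rw [ev_smul, ev_smul]
      obtain ⟨c1, c2, c3⟩ := a5 i hi
      obtain ⟨d1, d2, d3⟩ := b5 i hi
      have hgoal : (ev L y j0 : ℚ) * ev L x i = ev L x j0 * ev L y i := by
        rcases Bool.eq_false_or_eq_true ((F x).2.1 i).1 with ht | hf
        · rw [c2 ht, d2 ht]
          ring
        · have e1 := c3 hf
          have e2 := d3 hf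
          rw [a3] at e1
          rw [b3] at e2
          have e3 : ((F x).2.1 i).2 * ((ev L y j0 : ℚ) * ev L x i) =
              ((F x).2.1 i).2 * (ev L x j0 * ev L y i) := by
            calc ((F x).2.1 i).2 * ((ev L y j0 : ℚ) * ev L x i) =
                ev L y j0 * (((F x).2.1 i).2 * ev L x i) := by ring
              _ = ev L x j0 * (((F x).2.1 (F x).1).2 * ev L y j0) := by rw [← e1]; ring
              _ = _ := by rw [e2]; ring
          exact mul_left_cancel₀ c1 e3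
      exact_mod_cast hgoal
    exact fun k => congrFun hkey k
  have hmaps : Set.MapsTo F (Q \ (Box : Set (Fin n → ℤ))) (D : Set _) := fun x hx => hF1 x hx
  have hfinQ : (Q \ (Box : Set (Fin n → ℤ))).Finite :=
    Set.Finite.of_injOn hmaps hinj D.finite_toSet
  have hQsub : Q ⊆ (Box : Set (Fin n → ℤ)) ∪ (Q \ (Box : Set (Fin n → ℤ))) := by
    intro x hx
    by_cases h : x ∈ (Box : Set (Fin n → ℤ))
    · exact Or.inl h
    · exact Or.inr ⟨hx, h⟩
  refine ⟨(Box.finite_toSet.union hfinQ).subset hQsub, ?_⟩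
  have c1 : Q.ncard ≤ Box.card + D.card := by
    refine (Set.ncard_le_ncard hQsub (Box.finite_toSet.union hfinQ)).trans ?_
    refine (Set.ncard_union_le _ _).trans (add_le_add ?_ ?_)
    · rw [Set.ncard_coe_finset]
    · have := Set.ncard_le_ncard_of_injOn F hmaps hinj D.finite_toSet
      rwa [Set.ncard_coe_finset] at this
  have c2 : Box.card = (2 * G' + 1) ^ n := by
    rw [hBox, Fintype.card_piFinset]
    simp only [Int.card_Icc, prod_const, card_univ, Fintype.card_fin]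
    congr 1
    omega
  have c3 : D.card = q * ((2 * hfin.toFinset.card) ^ q * 2) := by
    rw [hD, card_product, card_product, Fintype.card_piFinset]
    simp only [card_product, prod_const, card_univ, Fintype.card_fin, Fintype.card_bool]
  rw [c2, c3] at c1
  have c4 : (hfin.toFinset.card : ℝ) ≤ C * (X : ℝ) ^ (ε / (q + 1)) := by
    rw [← Set.ncard_eq_toFinset_card _ hfin]
    exact hcard
  have c5 : (Q.ncard : ℝ) ≤ (2 * G' + 1) ^ n + q * ((2 * (hfin.toFinset.card : ℝ)) ^ q * 2) := by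
    exact_mod_cast c1
  refine c5.trans ?_
  have c6 : (2 * (hfin.toFinset.card : ℝ)) ^ q ≤ (2 * C) ^ q * (X : ℝ) ^ ε := by
    have h1 : (2 * (hfin.toFinset.card : ℝ)) ^ q ≤ ((2 * C) * (X : ℝ) ^ (ε / (q + 1))) ^ q := by
      refine pow_le_pow_left₀ (by positivity) ?_ _
      calc (2 * (hfin.toFinset.card : ℝ)) ≤ 2 * (C * (X : ℝ) ^ (ε / (q + 1))) := by linarith
        _ = _ := by ring
    refine h1.trans ?_
    rw [mul_pow]
    refine mul_le_mul_of_nonneg_left ?_ (by positivity)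
    rw [← Real.rpow_natCast ((X : ℝ) ^ (ε / (q + 1))) q, ← Real.rpow_mul (by positivity)]
    refine Real.rpow_le_rpow_of_exponent_le hXr ?_
    rw [div_mul_eq_mul_div, div_le_iff₀ (by positivity)]
    nlinarith
  have c7 : (1 : ℝ) ≤ (X : ℝ) ^ ε := Real.one_le_rpow hXr hε.le
  have c8 : ((2 * G' + 1 : ℝ)) ^ n ≤ (2 * G' + 1) ^ n * (X : ℝ) ^ ε :=
    le_mul_of_one_le_right (by positivity) c7
  have c9 : (q : ℝ) * ((2 * (hfin.toFinset.card : ℝ)) ^ q * 2) ≤
      q * (((2 * C) ^ q * (X : ℝ) ^ ε) * 2) := by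
    refine mul_le_mul_of_nonneg_left ?_ (Nat.cast_nonneg _)
    exact mul_le_mul_of_nonneg_right c6 (by norm_num)
  calc _ ≤ (2 * G' + 1) ^ n * (X : ℝ) ^ ε + q * (((2 * C) ^ q * (X : ℝ) ^ ε) * 2) :=
        add_le_add c8 c9
    _ = _ := by ring

end Pool.Agent.X286.Tr
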