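import Pool.Agent.X286.Tr.Main

/-!
# Arrangements of hyperplanes with many codimension two flats on three or more hyperplanes
-/

set_option autoImplicit false

namespace Pool.Agent.X286.Tr

open Finset Pool.Agent.X286.Sz Pool.Agent.X286.Vn

/-- a relation with three terms which involves `L i` and `L j` -/
def Rel3 {n q : ℕ} (L : Fin q → Fin n → ℤ) (i j : Fin q) : Prop :=
  ∃ (l : Fin q) (a b c : ℤ), a ≠ 0 ∧ b ≠ 0 ∧ c ≠ 0 ∧
    ∀ k, a * L i k + b * L j k + c * L l k = 0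

/-- the exponents of the primes not in `S` in the factorisations of the values -/
def exps {n q : ℕ} (S : Finset ℕ) (L : Fin q → Fin n → ℤ) (x : Fin n → ℤ) : Finset ℕ :=
  univ.biUnion fun i : Fin q => ((ev L x i).natAbs.primeFactors \ S).image
    (ev L x i).natAbs.factorization

/-- points with few exponents and counting function at most `log N` -/
def Adm {n q : ℕ} (S : Finset ℕ) (L : Fin q → Fin n → ℤ) (m : ℕ) (x : Fin n → ℤ) (N : ℕ) : Prop :=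
  (∀ i, ev L x i ≠ 0) ∧ (∀ i, ∏ p ∈ (ev L x i).natAbs.primeFactors \ S, p ≤ N) ∧
    (exps S L x).card ≤ m

theorem fact_mem {n q : ℕ} {S : Finset ℕ} {L : Fin q → Fin n → ℤ} {m : ℕ} {x : Fin n → ℤ} {N : ℕ}
    (hx : Adm S L m x N) (i : Fin q) (p : ℕ) (hpS : p ∉ S) (hp : p.Prime) :
    (ev L x i).natAbs.factorization p ∈ insert 0 (exps S L x) := by
  rw [mem_insert]
  by_cases h : p ∣ (ev L x i).natAbs
  · right
    exact mem_biUnion.2 ⟨i, mem_univ _, mem_image.2 ⟨p, mem_sdiff.2 ⟨Nat.mem_primeFactors.2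
      ⟨hp, h, Int.natAbs_ne_zero.2 (hx.1 i)⟩, hpS⟩, rfl⟩⟩
  · left
    exact Nat.factorization_eq_zero_of_not_dvd h

/-- the coefficients of the relations -/
structure Dat {n q : ℕ} (L : Fin q → Fin n → ℤ) (A : Fin q → Fin q → Prop) where
  l : Fin q → Fin q → Fin q
  a : Fin q → Fin q → ℤ
  b : Fin q → Fin q → ℤ
  c : Fin q → Fin q → ℤ
  ha : ∀ i j, a i j ≠ 0
  hb : ∀ i j, b i j ≠ 0
  hc : ∀ i j, c i j ≠ 0
  rel : ∀ i j, A i j → ∀ k, a i j * L i k + b i j * L j k + c i j * L (l i j) k = 0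

theorem exists_dat {n q : ℕ} (L : Fin q → Fin n → ℤ) (A : Fin q → Fin q → Prop)
    (hA : ∀ i j, A i j → Rel3 L i j) : Nonempty (Dat L A) := by
  classical
  have h : ∀ i j, ∃ (l : Fin q) (a b c : ℤ), a ≠ 0 ∧ b ≠ 0 ∧ c ≠ 0 ∧
      (A i j → ∀ k, a * L i k + b * L j k + c * L l k = 0) := by
    intro i j
    by_cases hij : A i j
    · obtain ⟨l, a, b, c, h1, h2, h3, h4⟩ := hA i j hij
      exact ⟨l, a, b, c, h1, h2, h3, fun _ => h4⟩
    · exact ⟨i, 1, 1, 1, one_ne_zero, one_ne_zero, one_ne_zero, fun h => absurd h hij⟩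
  choose l a b c h1 h2 h3 h4 using h
  exact ⟨⟨l, a, b, c, h1, h2, h3, h4⟩⟩

/-- a common multiple of the coefficients and of the primes of `S` -/
def Dat.M {n q : ℕ} {L : Fin q → Fin n → ℤ} {A : Fin q → Fin q → Prop} (d : Dat L A)
    (S : Finset ℕ) : ℕ := (∏ z : Fin q × Fin q, (d.a z.1 z.2 * d.b z.1 z.2 * d.c z.1 z.2).natAbs) * sp S

theorem Dat.M_pos {n q : ℕ} {L : Fin q → Fin n → ℤ} {A : Fin q → Fin q → Prop} (d : Dat L A)
    (S : Finset ℕ) : 0 < d.M S := by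
  refine Nat.mul_pos (prod_pos fun z _ => ?_) (sp_pos S)
  exact Int.natAbs_pos.2 (mul_ne_zero (mul_ne_zero (d.ha _ _) (d.hb _ _)) (d.hc _ _))

theorem Dat.dvd {n q : ℕ} {L : Fin q → Fin n → ℤ} {A : Fin q → Fin q → Prop} (d : Dat L A)
    (S : Finset ℕ) (i j : Fin q) : (d.a i j).natAbs ∣ d.M S ∧ (d.b i j).natAbs ∣ d.M S ∧
      (d.c i j).natAbs ∣ d.M S := by
  have h : (d.a i j * d.b i j * d.c i j).natAbs ∣ d.M S :=
    (dvd_prod_of_mem (fun z : Fin q × Fin q =>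
      (d.a z.1 z.2 * d.b z.1 z.2 * d.c z.1 z.2).natAbs) (mem_univ (i, j))).trans
        (Nat.dvd_mul_right _ _)
  rw [Int.natAbs_mul, Int.natAbs_mul] at h
  exact ⟨(Dvd.intro _ rfl).trans ((Nat.dvd_mul_right _ _).trans h),
    (Nat.dvd_mul_left _ _).trans ((Nat.dvd_mul_right _ _).trans h), (Nat.dvd_mul_left _ _).trans h⟩

theorem ev_rel {n q : ℕ} {L : Fin q → Fin n → ℤ} {i j l : Fin q} {a b c : ℤ}
    (h : ∀ k, a * L i k + b * L j k + c * L l k = 0) (x : Fin n → ℤ) :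
    a * ev L x i + b * ev L x j + c * ev L x l = 0 := by
  unfold ev
  rw [mul_sum, mul_sum, mul_sum, ← sum_add_distrib, ← sum_add_distrib]
  refine sum_eq_zero fun k _ => ?_
  linear_combination (x k) * h k

/-- the abc triple of two adjacent forms -/
theorem step {n q : ℕ} {L : Fin q → Fin n → ℤ} {A : Fin q → Fin q → Prop} (d : Dat L A)
    (S : Finset ℕ) {m : ℕ} {x : Fin n → ℤ} {N : ℕ} (hx : Adm S L m x N) {i j : Fin q}
    (hij : A i j) : ∃ (k : Fin 3) (u v : ℕ), 0 < u ∧ 0 < v ∧ u.Coprime v ∧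
      q2 k u v * d.a i j * ev L x i = q1 k u v * d.b i j * ev L x j ∧
      Sz.PowerProduct ((m + 1) * (m + 1) + (d.M S + 1)) (d.M S + N) u ∧
      Sz.PowerProduct ((m + 1) * (m + 1) + (d.M S + 1)) (d.M S + N) v ∧
      Sz.PowerProduct ((m + 1) * (m + 1) + (d.M S + 1)) (d.M S + N) (u + v) := by
  classical
  have hcard : (insert 0 (exps S L x)).card ≤ m + 1 :=
    (card_insert_le _ _).trans (Nat.succ_le_succ hx.2.2)
  obtain ⟨h1, h2, h3⟩ := d.dvd S i j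
  exact tri_pp (insert 0 (exps S L x)) (ev_rel (d.rel i j hij) x) (d.ha i j) (d.hb i j) (d.hc i j)
    (hx.1 _) (hx.1 _) (hx.1 _) h1 h2 h3 (Nat.dvd_mul_left _ _) (d.M_pos S)
    (fact_mem hx _) (fact_mem hx _) (fact_mem hx _) (Nat.mul_le_mul hcard hcard) (hx.2.1 _)
    (hx.2.1 _) (hx.2.1 _)

/-- the quotient of adjacent values has height at most `M (u + v)` -/
theorem small_of {n q : ℕ} {L : Fin q → Fin n → ℤ} {A : Fin q → Fin q → Prop} (d : Dat L A)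
    (S : Finset ℕ) {x : Fin n → ℤ} {i j : Fin q} {k : Fin 3} {u v : ℕ} (hu : 0 < u) (hv : 0 < v)
    (h : q2 k u v * d.a i j * ev L x i = q1 k u v * d.b i j * ev L x j) :
    Small ((d.M S : ℤ) * ((u : ℤ) + v)) (ev L x i) (ev L x j) := by
  obtain ⟨h1, h2, -⟩ := d.dvd S i j
  have h3 : |d.a i j| ≤ (d.M S : ℤ) := by
    rw [Int.abs_eq_natAbs]
    exact_mod_cast Nat.le_of_dvd (d.M_pos S) h1
  have h4 : |d.b i j| ≤ (d.M S : ℤ) := by
    rw [Int.abs_eq_natAbs]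
    exact_mod_cast Nat.le_of_dvd (d.M_pos S) h2
  refine ⟨q2 k u v * d.a i j, q1 k u v * d.b i j, mul_ne_zero (q_ne hu hv).2 (d.ha i j),
    mul_ne_zero (q_ne hu hv).1 (d.hb i j), ?_, ?_, h⟩
  · rw [abs_mul, mul_comm]
    exact mul_le_mul h3 (q2_le k u v) (abs_nonneg _) (by positivity)
  · rw [abs_mul, mul_comm]
    exact mul_le_mul h4 (q1_le k u v) (abs_nonneg _) (by positivity)

/-- the quotient of adjacent values -/
theorem div_of {n q : ℕ} {L : Fin q → Fin n → ℤ} {A : Fin q → Fin q → Prop} (d : Dat L A)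
    {x : Fin n → ℤ} {i j : Fin q} {k : Fin 3} {u v : ℕ} (hu : 0 < u) (hv : 0 < v)
    (hj : ev L x j ≠ 0)
    (h : q2 k u v * d.a i j * ev L x i = q1 k u v * d.b i j * ev L x j) :
    (ev L x i : ℚ) / ev L x j = (q1 k u v * d.b i j : ℤ) / (q2 k u v * d.a i j : ℤ) := by
  have h1 : ((q2 k u v * d.a i j : ℤ) : ℚ) ≠ 0 := by
    exact_mod_cast mul_ne_zero (q_ne hu hv).2 (d.ha i j)
  have h2 : (ev L x j : ℚ) ≠ 0 := by exact_mod_cast hj
  rw [div_eq_div_iff h2 h1]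
  have h3 := congrArg (fun z : ℤ => (z : ℚ)) h
  push_cast at h3 ⊢
  linarith

/-- the component of a form -/
theorem path {q : ℕ} (A : Fin q → Fin q → Prop) (i0 : Fin q) {j : Fin q}
    (hj : Relation.ReflTransGen A i0 j) : ∃ t : ℕ, ∀ (W : ℤ) (y : Fin q → ℤ), 1 ≤ W →
      (∀ i j, A i j → Small W (y i) (y j)) → Small (W ^ t) (y j) (y i0) := by
  induction hj with
  | refl => exact ⟨0, fun W y _ _ => by rw [pow_zero]; exact small_refl _ _ le_rfl⟩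
  | tail _ hbc ih =>
    obtain ⟨t, ht⟩ := ih
    refine ⟨1 + t, fun W y hW h => ?_⟩
    rw [pow_add, pow_one]
    exact small_trans (small_symm (h _ _ hbc)) (ht W y hW h)

/-- replacing the forms outside a set -/
theorem span_repl {n q : ℕ} {L : Fin q → Fin n → ℤ} {B : Set (Fin q)} [DecidablePred (· ∈ B)]
    (i0 : Fin q) (h : Submodule.span ℚ (Vn.vec L '' B) = ⊤) :
    Submodule.span ℚ (Set.range (Vn.vec fun i => if i ∈ B then L i else L i0)) = ⊤ := by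
  rw [eq_top_iff, ← h]
  apply Submodule.span_mono
  rintro _ ⟨i, hi, rfl⟩
  refine ⟨i, ?_⟩
  funext k
  simp only [Vn.vec, if_pos hi]

theorem ev_repl {n q : ℕ} {L : Fin q → Fin n → ℤ} {B : Set (Fin q)} [DecidablePred (· ∈ B)]
    (i0 : Fin q) (x : Fin n → ℤ) (j : Fin q) :
    ev (fun i => if i ∈ B then L i else L i0) x j = if j ∈ B then ev L x j else ev L x i0 := by
  by_cases hj : j ∈ B
  · simp only [ev, if_pos hj]
  · simp only [ev, if_neg hj]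

/-- **Connected arrangements.** All heights. -/
theorem hyper {n q : ℕ} (L : Fin q → Fin n → ℤ) (A : Fin q → Fin q → Prop)
    (hA : ∀ i j, A i j → Rel3 L i j) (i0 : Fin q)
    (hspan : Submodule.span ℚ (Vn.vec L '' {j | Relation.ReflTransGen A i0 j}) = ⊤)
    (hex : ∃ i j, A i j) (S : Finset ℕ) (m : ℕ) {ε : ℝ} (hε : 0 < ε) :
    ∃ (κ : ℕ) (C : ℝ), 0 < C ∧ ∀ X : ℕ, 1 ≤ X → ∃ 𝓗 : Finset (Fin q × Fin q × ℚ),
      (𝓗.card : ℝ) ≤ C * (X : ℝ) ^ ε ∧ (∀ h ∈ 𝓗, A h.1 h.2.1) ∧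
      ∀ (x : Fin n → ℤ) (N : ℕ), univ.gcd x = 1 → 0 < N → N ≤ X → Adm S L m x N →
        (∃ k, (N : ℤ) ^ κ < |x k|) →
        ∃ h ∈ 𝓗, (ev L x h.1 : ℚ) = h.2.2 * ev L x h.2.1 := by
  classical
  obtain ⟨d⟩ := exists_dat L A hA
  have hM0 := d.M_pos S
  -- the paths
  have hpath : ∀ j, ∃ t : ℕ, Relation.ReflTransGen A i0 j → ∀ (W : ℤ) (y : Fin q → ℤ), 1 ≤ W →
      (∀ i j, A i j → Small W (y i) (y j)) → Small (W ^ t) (y j) (y i0) := by
    intro j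
    by_cases hj : Relation.ReflTransGen A i0 j
    · obtain ⟨t, ht⟩ := path A i0 hj
      exact ⟨t, fun _ => ht⟩
    · exact ⟨0, fun h => absurd h hj⟩
  choose t ht using hpath
  obtain ⟨T, hT⟩ : ∃ T : ℕ, ∀ j, t j ≤ T := ⟨∑ j, t j, fun j =>
    Finset.single_le_sum (f := t) (fun _ _ => Nat.zero_le _) (mem_univ j)⟩
  obtain ⟨G, hG⟩ := height_of_small (span_repl i0 hspan)
  obtain ⟨κ, C, hC, hd⟩ := Pool.Agent.X286.Gn.dyad (β := Fin q × Fin q × ℚ)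
    (ι := Fin q × Fin q × Fin 3)
    (fun z => (z.1.1, z.1.2.1, ((q1 z.1.2.2 z.2.1 z.2.2 * d.b z.1.1 z.1.2.1 : ℤ) : ℚ) /
      ((q2 z.1.2.2 z.2.1 z.2.2 * d.a z.1.1 z.1.2.1 : ℤ) : ℚ)))
    ((m + 1) * (m + 1) + (d.M S + 1)) (d.M S) ((G + 1) * (d.M S) ^ (T * (2 * q)))
    (T * (2 * q)) 0 hM0 (Nat.mul_pos (Nat.succ_pos _) (Nat.pow_pos hM0)) hε
  refine ⟨κ, C, hC, fun X hX => ?_⟩
  obtain ⟨Q, hQ⟩ : ∃ Q : Set (Fin q × Fin q × ℚ), Q = {b | A b.1 b.2.1 ∧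
    ∃ (N Z : ℕ) (k : Fin q × Fin q × Fin 3) (u v : ℕ), 0 < N ∧ N ≤ X ∧ N ^ κ < Z ∧
      0 < u ∧ 0 < v ∧ u.Coprime v ∧
      b = (fun z : (Fin q × Fin q × Fin 3) × (ℕ × ℕ) => (z.1.1, z.1.2.1,
        ((q1 z.1.2.2 z.2.1 z.2.2 * d.b z.1.1 z.1.2.1 : ℤ) : ℚ) /
          ((q2 z.1.2.2 z.2.1 z.2.2 * d.a z.1.1 z.1.2.1 : ℤ) : ℚ))) (k, (u, v)) ∧
      Sz.PowerProduct ((m + 1) * (m + 1) + (d.M S + 1)) (d.M S + N) u ∧
      Sz.PowerProduct ((m + 1) * (m + 1) + (d.M S + 1)) (d.M S + N) v ∧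
      Sz.PowerProduct ((m + 1) * (m + 1) + (d.M S + 1)) (d.M S + N) (u + v) ∧
      Z ≤ ((G + 1) * (d.M S) ^ (T * (2 * q))) * ((u + v) ^ (T * (2 * q)) * N ^ 0)} := ⟨_, rfl⟩
  obtain ⟨hfin, hcard⟩ := hd X hX Q (fun b hb => by
    rw [hQ] at hb
    exact hb.2)
  refine ⟨hfin.toFinset, ?_, ?_, ?_⟩
  · rw [← Set.ncard_eq_toFinset_card _ hfin]
    exact hcard
  · intro h hh
    rw [Set.Finite.mem_toFinset, hQ] at hh
    exact hh.1
  · intro x N hx hN hNX hadm hbig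
    -- the triples
    have hst := fun z : {z : Fin q × Fin q // A z.1 z.2} => step d S hadm z.2
    choose k u v h1 h2 h3 h4 h5 h6 h7 using hst
    obtain ⟨i1, j1, hij1⟩ := hex
    obtain ⟨z, -, hz⟩ := Finset.exists_max_image univ (fun z => u z + v z)
      ⟨(⟨(i1, j1), hij1⟩ : {z : Fin q × Fin q // A z.1 z.2}), mem_univ _⟩
    obtain ⟨W, hW⟩ : ∃ W : ℕ, W = d.M S * (u z + v z) := ⟨_, rfl⟩
    have hW1 : 1 ≤ W := by
      rw [hW]
      have := h1 z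
      exact Nat.mul_pos hM0 (by omega)
    have hsm : ∀ i j, A i j → Small (W : ℤ) (ev L x i) (ev L x j) := by
      intro i j hij
      refine small_mono ?_ (small_of d S (h1 ⟨(i, j), hij⟩) (h2 ⟨(i, j), hij⟩) (h4 ⟨(i, j), hij⟩))
      rw [hW]
      push_cast
      refine mul_le_mul_of_nonneg_left ?_ (Int.natCast_nonneg _)
      exact_mod_cast hz ⟨(i, j), hij⟩ (mem_univ _)
    obtain ⟨k0, hk0⟩ := hbig
    have hhe := hG (W ^ T) x i0 (Nat.one_le_pow _ _ hW1) hx (fun j => by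
      rw [ev_repl, ev_repl]
      have hi0 : i0 ∈ {j | Relation.ReflTransGen A i0 j} := Relation.ReflTransGen.refl
      rw [if_pos hi0]
      by_cases hj : j ∈ {j | Relation.ReflTransGen A i0 j}
      · rw [if_pos hj]
        refine small_mono ?_ (ht j hj (W : ℤ) (ev L x) (by exact_mod_cast hW1) hsm)
        push_cast
        exact pow_le_pow_right₀ (by exact_mod_cast hW1) (hT j)
      · rw [if_neg hj]
        exact small_refl _ _ (by exact_mod_cast Nat.one_le_pow _ _ hW1)) (by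
      rw [ev_repl]
      split_ifs
      · exact hadm.1 _
      · exact hadm.1 _) k0
    refine ⟨(z.1.1, z.1.2, ((q1 (k z) (u z) (v z) * d.b z.1.1 z.1.2 : ℤ) : ℚ) /
      ((q2 (k z) (u z) (v z) * d.a z.1.1 z.1.2 : ℤ) : ℚ)), ?_, ?_⟩
    · rw [Set.Finite.mem_toFinset, hQ]
      refine ⟨z.2, N, (G + 1) * W ^ (T * (2 * q)), (z.1.1, z.1.2, k z), u z, v z, hN, hNX, ?_,
        h1 z, h2 z, h3 z, rfl, h5 z, h6 z, h7 z, ?_⟩
      · have h8 : (N : ℤ) ^ κ < G * ((W ^ T : ℕ) : ℤ) ^ (2 * q) := hk0.trans_le hhe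
        have h9 : N ^ κ < G * (W ^ T) ^ (2 * q) := by exact_mod_cast h8
        rw [← pow_mul] at h9
        refine h9.trans_le (Nat.mul_le_mul_right _ (Nat.le_succ _))
      · rw [pow_zero, mul_one, hW, mul_pow, mul_assoc]
    · have h8 := div_of d (h1 z) (h2 z) (hadm.1 z.1.2) (h4 z)
      have h9 : (ev L x z.1.2 : ℚ) ≠ 0 := by exact_mod_cast hadm.1 z.1.2
      rw [div_eq_iff h9] at h8
      exact h8

end Pool.Agent.X286.Tr
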