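import Pool.Agent.X286.Gn.Dyad
import Pool.Agent.X286.Vn.Arr

/-!
# Linear relations with three terms: the abc triple of a point
-/

set_option autoImplicit false

namespace Pool.Agent.X286.Tr

open Finset Pool.Agent.X286.Sz

/-- numerators of the quotients -/
def q1 (k : Fin 3) (u v : ℕ) : ℤ := ![(u : ℤ), u, -(u + v)] k

/-- denominators of the quotients -/
def q2 (k : Fin 3) (u v : ℕ) : ℤ := ![(v : ℤ), -(u + v), v] k

theorem q1_le (k : Fin 3) (u v : ℕ) : |q1 k u v| ≤ u + v := by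
  fin_cases k
  · show |(u : ℤ)| ≤ u + v
    rw [abs_of_nonneg (Int.natCast_nonneg _)]
    linarith [Int.natCast_nonneg v]
  · show |(u : ℤ)| ≤ u + v
    rw [abs_of_nonneg (Int.natCast_nonneg _)]
    linarith [Int.natCast_nonneg v]
  · show |-((u : ℤ) + v)| ≤ u + v
    rw [abs_neg, abs_of_nonneg (by positivity)]

theorem q2_le (k : Fin 3) (u v : ℕ) : |q2 k u v| ≤ u + v := by
  fin_cases k
  · show |(v : ℤ)| ≤ u + v
    rw [abs_of_nonneg (Int.natCast_nonneg _)]
    linarith [Int.natCast_nonneg u]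
  · show |-((u : ℤ) + v)| ≤ u + v
    rw [abs_neg, abs_of_nonneg (by positivity)]
  · show |(v : ℤ)| ≤ u + v
    rw [abs_of_nonneg (Int.natCast_nonneg _)]
    linarith [Int.natCast_nonneg u]

theorem q_ne {k : Fin 3} {u v : ℕ} (hu : 0 < u) (hv : 0 < v) : q1 k u v ≠ 0 ∧ q2 k u v ≠ 0 := by
  fin_cases k
  · show (u : ℤ) ≠ 0 ∧ (v : ℤ) ≠ 0
    omega
  · show (u : ℤ) ≠ 0 ∧ -((u : ℤ) + v) ≠ 0
    omega
  · show -((u : ℤ) + v) ≠ 0 ∧ (v : ℤ) ≠ 0
    omega

/-- three coprime integers with the sum zero -/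
theorem split3 {s1 s2 s3 : ℤ} (h1 : s1 ≠ 0) (h2 : s2 ≠ 0) (h3 : s3 ≠ 0) (h : s1 + s2 + s3 = 0)
    (hc : s1.natAbs.Coprime s2.natAbs) : ∃ (k : Fin 3) (u v : ℕ), 0 < u ∧ 0 < v ∧ u.Coprime v ∧
      q2 k u v * s1 = q1 k u v * s2 ∧ ∀ P : ℕ → Prop, P s1.natAbs → P s2.natAbs → P s3.natAbs →
        P u ∧ P v ∧ P (u + v) := by
  obtain ⟨u, hu⟩ : ∃ u, u = s1.natAbs := ⟨_, rfl⟩
  obtain ⟨v, hv⟩ : ∃ v, v = s2.natAbs := ⟨_, rfl⟩
  have hu0 : 0 < u := by omega
  have hv0 : 0 < v := by omega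
  rw [← hu, ← hv] at hc
  by_cases hs : 0 < s1 ↔ 0 < s2
  · -- the same sign
    have h4 : s3.natAbs = u + v := by omega
    refine ⟨0, u, v, hu0, hv0, hc, ?_, fun P p1 p2 p3 => ?_⟩
    · show (v : ℤ) * s1 = u * s2
      rcases lt_or_gt_of_ne h1 with h5 | h5
      · have e1 : s1 = -(u : ℤ) := by omega
        have e2 : s2 = -(v : ℤ) := by omega
        rw [e1, e2]
        ring
      · have e1 : s1 = (u : ℤ) := by omega
        have e2 : s2 = (v : ℤ) := by omega
        rw [e1, e2]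
        ring
    · rw [← hu] at p1
      rw [← hv] at p2
      rw [h4] at p3
      exact ⟨p1, p2, p3⟩
  · by_cases hlt : u < v
    · obtain ⟨w, hw⟩ : ∃ w, v = u + w := ⟨v - u, by omega⟩
      have hw0 : 0 < w := by omega
      have h4 : s3.natAbs = w := by omega
      refine ⟨1, u, w, hu0, hw0, ?_, ?_, fun P p1 p2 p3 => ?_⟩
      · rw [hw, add_comm] at hc
        simpa using hc
      · show -((u : ℤ) + w) * s1 = u * s2
        rcases lt_or_gt_of_ne h1 with h5 | h5
        · have e1 : s1 = -(u : ℤ) := by omega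
          have e2 : s2 = (u : ℤ) + w := by omega
          rw [e1, e2]
          ring
        · have e1 : s1 = (u : ℤ) := by omega
          have e2 : s2 = -((u : ℤ) + w) := by omega
          rw [e1, e2]
          ring
      · rw [← hu] at p1
        rw [← hv, hw] at p2
        rw [h4] at p3
        exact ⟨p1, p3, p2⟩
    · have hne : u ≠ v := by omega
      obtain ⟨w, hw⟩ : ∃ w, u = w + v := ⟨u - v, by omega⟩
      have hw0 : 0 < w := by omega
      have h4 : s3.natAbs = w := by omega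
      refine ⟨2, w, v, hw0, hv0, ?_, ?_, fun P p1 p2 p3 => ?_⟩
      · rw [hw] at hc
        simpa using hc
      · show (v : ℤ) * s1 = -((w : ℤ) + v) * s2
        rcases lt_or_gt_of_ne h1 with h5 | h5
        · have e1 : s1 = -((w : ℤ) + v) := by omega
          have e2 : s2 = (v : ℤ) := by omega
          rw [e1, e2]
          ring
        · have e1 : s1 = (w : ℤ) + v := by omega
          have e2 : s2 = -(v : ℤ) := by omega
          rw [e1, e2]
          ring
      · rw [← hu, hw] at p1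
        rw [← hv] at p2
        rw [h4] at p3
        exact ⟨p3, p2, p1⟩

/-- the product of the primes of `S` -/
def sp (S : Finset ℕ) : ℕ := ∏ p ∈ S.filter Nat.Prime, p

theorem sp_pos (S : Finset ℕ) : 0 < sp S := prod_pos fun _ hp => (mem_filter.1 hp).2.pos

theorem prime_of {m : ℕ} {S : Finset ℕ} {p : ℕ} (h : p ∈ m.primeFactors \ S) : p.Prime :=
  Nat.prime_of_mem_primeFactors (mem_sdiff.1 h).1

/-- a member of the abc triple is a product of few powers -/
theorem pp_mem {L1 L2 a b s : ℤ} {g M n R : ℕ} {S : Finset ℕ} (V : Finset ℕ)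
    (hs : a * L1 = g * s) (hg : Int.gcd (a * L1) (b * L2) = g) (ha : a ≠ 0) (hb : b ≠ 0)
    (hL1 : L1 ≠ 0) (hL2 : L2 ≠ 0) (haM : a.natAbs ∣ M) (hbM : b.natAbs ∣ M) (hS : sp S ∣ M)
    (hM : 0 < M) (hV1 : ∀ p, p ∉ S → p.Prime → L1.natAbs.factorization p ∈ V)
    (hV2 : ∀ p, p ∉ S → p.Prime → L2.natAbs.factorization p ∈ V) (hn : V.card * V.card ≤ n)
    (hR : ∏ p ∈ L1.natAbs.primeFactors \ S, p ≤ R) :
    Pool.Agent.X286.Sz.PowerProduct (n + (M + 1)) (M + R) s.natAbs := by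
  classical
  have haL : a * L1 ≠ 0 := mul_ne_zero ha hL1
  have hs0 : s ≠ 0 := by
    rintro rfl
    rw [mul_zero] at hs
    exact haL hs
  have hg0 : g ≠ 0 := by
    rintro rfl
    simp only [Nat.cast_zero, zero_mul] at hs
    exact haL hs
  have key : ∀ p ∈ prs M s.natAbs, p ∈ L1.natAbs.primeFactors \ S ∧
      s.natAbs.factorization p = L1.natAbs.factorization p -
        min (L1.natAbs.factorization p) (L2.natAbs.factorization p) := by
    intro p hp
    rw [prs, mem_filter, Nat.mem_primeFactors] at hp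
    obtain ⟨⟨hpp, hpw, _⟩, hpM⟩ := hp
    have hpa : ¬ p ∣ a.natAbs := fun h => hpM (h.trans haM)
    have hpb : ¬ p ∣ b.natAbs := fun h => hpM (h.trans hbM)
    have hpS : p ∉ S := fun h => hpM ((dvd_prod_of_mem (fun p => p)
      (mem_filter.2 ⟨h, hpp⟩)).trans hS)
    have e1 : (a * L1).natAbs.factorization p = L1.natAbs.factorization p := by
      rw [Int.natAbs_mul, Nat.factorization_mul (Int.natAbs_ne_zero.2 ha)
        (Int.natAbs_ne_zero.2 hL1), Finsupp.add_apply,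
        Nat.factorization_eq_zero_of_not_dvd hpa, zero_add]
    have e2 : (b * L2).natAbs.factorization p = L2.natAbs.factorization p := by
      rw [Int.natAbs_mul, Nat.factorization_mul (Int.natAbs_ne_zero.2 hb)
        (Int.natAbs_ne_zero.2 hL2), Finsupp.add_apply,
        Nat.factorization_eq_zero_of_not_dvd hpb, zero_add]
    have e3 : g.factorization p = min (L1.natAbs.factorization p) (L2.natAbs.factorization p) := by
      rw [← hg, ← e1, ← e2]
      have := Nat.factorization_gcd (Int.natAbs_ne_zero.2 haL)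
        (Int.natAbs_ne_zero.2 (mul_ne_zero hb hL2))
      have h2 := DFunLike.congr_fun this p
      rw [Finsupp.inf_apply] at h2
      exact h2
    have e4 : (a * L1).natAbs.factorization p = g.factorization p + s.natAbs.factorization p := by
      rw [hs, Int.natAbs_mul, Int.natAbs_natCast, Nat.factorization_mul hg0
        (Int.natAbs_ne_zero.2 hs0), Finsupp.add_apply]
    have hv : s.natAbs.factorization p = L1.natAbs.factorization p -
        min (L1.natAbs.factorization p) (L2.natAbs.factorization p) := by omega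
    refine ⟨?_, hv⟩
    have hpos := hpp.factorization_pos_of_dvd (Int.natAbs_ne_zero.2 hs0) hpw
    have hpos2 : 0 < L1.natAbs.factorization p := by omega
    exact mem_sdiff.2 ⟨Nat.mem_primeFactors.2 ⟨hpp, Nat.dvd_of_factorization_pos hpos2.ne',
      Int.natAbs_ne_zero.2 hL1⟩, hpS⟩
  refine pp_of (Int.natAbs_ne_zero.2 hs0) hM ?_ ?_ (Nat.le_add_right _ _)
  · refine le_trans (card_le_card (t := (V ×ˢ V).image fun z => z.1 - min z.1 z.2) ?_) ?_
    · intro e he
      obtain ⟨p, hp, rfl⟩ := mem_image.1 he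
      rw [(key p hp).2]
      have h1 := (key p hp).1
      exact mem_image.2 ⟨(L1.natAbs.factorization p, L2.natAbs.factorization p),
        mem_product.2 ⟨hV1 p (mem_sdiff.1 h1).2 (prime_of h1),
          hV2 p (mem_sdiff.1 h1).2 (prime_of h1)⟩, rfl⟩
    · refine card_image_le.trans ?_
      rw [card_product]
      exact hn
  · refine le_trans ?_ (hR.trans (Nat.le_add_left _ _))
    exact prod_le_prod_of_subset_of_one_le' (fun p hp => (key p hp).1)
      fun p hp _ => (prime_of hp).one_lt.le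

theorem gcd_eq {x y z : ℤ} (h : x + y + z = 0) : Int.gcd y x = Int.gcd x y ∧
    Int.gcd z x = Int.gcd x y := by
  refine ⟨Int.gcd_comm _ _, ?_⟩
  have hz : z = -(x + y) := by linarith
  rw [hz, Int.neg_gcd, Int.gcd_comm]
  simp

/-- the abc triple of a relation with three terms -/
theorem tri_pp {L1 L2 L3 a b c : ℤ} {M n R : ℕ} {S : Finset ℕ} (V : Finset ℕ)
    (hrel : a * L1 + b * L2 + c * L3 = 0) (ha : a ≠ 0) (hb : b ≠ 0) (hc : c ≠ 0)
    (hL1 : L1 ≠ 0) (hL2 : L2 ≠ 0) (hL3 : L3 ≠ 0) (haM : a.natAbs ∣ M) (hbM : b.natAbs ∣ M)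
    (hcM : c.natAbs ∣ M) (hS : sp S ∣ M) (hM : 0 < M)
    (hV1 : ∀ p, p ∉ S → p.Prime → L1.natAbs.factorization p ∈ V)
    (hV2 : ∀ p, p ∉ S → p.Prime → L2.natAbs.factorization p ∈ V)
    (hV3 : ∀ p, p ∉ S → p.Prime → L3.natAbs.factorization p ∈ V) (hn : V.card * V.card ≤ n)
    (hR1 : ∏ p ∈ L1.natAbs.primeFactors \ S, p ≤ R)
    (hR2 : ∏ p ∈ L2.natAbs.primeFactors \ S, p ≤ R)
    (hR3 : ∏ p ∈ L3.natAbs.primeFactors \ S, p ≤ R) :
    ∃ (k : Fin 3) (u v : ℕ), 0 < u ∧ 0 < v ∧ u.Coprime v ∧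
      q2 k u v * a * L1 = q1 k u v * b * L2 ∧ Sz.PowerProduct (n + (M + 1)) (M + R) u ∧
      Sz.PowerProduct (n + (M + 1)) (M + R) v ∧ Sz.PowerProduct (n + (M + 1)) (M + R) (u + v) := by
  have h1 : a * L1 ≠ 0 := mul_ne_zero ha hL1
  have h2 : b * L2 ≠ 0 := mul_ne_zero hb hL2
  have h3 : c * L3 ≠ 0 := mul_ne_zero hc hL3
  obtain ⟨g, hg⟩ : ∃ g, g = Int.gcd (a * L1) (b * L2) := ⟨_, rfl⟩
  have hg0 : 0 < g := by
    rw [hg]
    exact Int.gcd_pos_of_ne_zero_left _ h1
  have hg0' : (g : ℤ) ≠ 0 := by exact_mod_cast hg0.ne'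
  obtain ⟨s1, hs1⟩ : (g : ℤ) ∣ a * L1 := by rw [hg]; exact Int.gcd_dvd_left ..
  obtain ⟨s2, hs2⟩ : (g : ℤ) ∣ b * L2 := by rw [hg]; exact Int.gcd_dvd_right ..
  obtain ⟨s3, hs3⟩ : ∃ s3, s3 = -(s1 + s2) := ⟨_, rfl⟩
  have hs3' : c * L3 = g * s3 := by
    rw [hs3]
    linear_combination hrel - hs1 - hs2
  have n1 : s1 ≠ 0 := by
    rintro rfl
    rw [mul_zero] at hs1
    exact h1 hs1
  have n2 : s2 ≠ 0 := by
    rintro rfl
    rw [mul_zero] at hs2
    exact h2 hs2
  have n3 : s3 ≠ 0 := by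
    intro h
    rw [h, mul_zero] at hs3'
    exact h3 hs3'
  have hcop : s1.natAbs.Coprime s2.natAbs := by
    have h4 : g = g * Int.gcd s1 s2 := by
      conv_lhs => rw [hg, hs1, hs2, Int.gcd_mul_left, Int.natAbs_natCast]
    have h5 : Int.gcd s1 s2 = 1 := by
      have : g * 1 = g * Int.gcd s1 s2 := by rw [mul_one]; exact h4
      exact (Nat.eq_of_mul_eq_mul_left hg0 this).symm
    exact h5
  obtain ⟨k, u, v, hu, hv, huv, hq, hP⟩ := split3 n1 n2 n3 (by rw [hs3]; ring) hcop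
  obtain ⟨g2, g3⟩ := gcd_eq hrel
  rw [← hg] at g2 g3
  have p1 := pp_mem V hs1 hg.symm ha hb hL1 hL2 haM hbM hS hM hV1 hV2 hn hR1
  have p2 := pp_mem V hs2 g2 hb ha hL2 hL1 hbM haM hS hM hV2 hV1 hn hR2
  have p3 := pp_mem V hs3' g3 hc ha hL3 hL1 hcM haM hS hM hV3 hV1 hn hR3
  obtain ⟨r1, r2, r3⟩ := hP _ p1 p2 p3
  refine ⟨k, u, v, hu, hv, huv, ?_, r1, r2, r3⟩
  calc q2 k u v * a * L1 = q2 k u v * (a * L1) := by ring
    _ = g * (q2 k u v * s1) := by rw [hs1]; ring
    _ = g * (q1 k u v * s2) := by rw [hq]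
    _ = q1 k u v * (b * L2) := by rw [hs2]; ring
    _ = _ := by ring

end Pool.Agent.X286.Tr
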